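import Pool.Agent.R546.EM.Defs
import Pool.Agent.H671R2.PolyAuto

/-!
# A polynomial-time algorithm for editing to graphs without induced `C₄` and `2 K₂`
-/

set_option autoImplicit false

namespace Pool.Agent.R546.EM

open Pool.Agent.NPC Pool.Agent.NPC.R671

/-- the entry of a matrix -/
def ent (M : List (List Bool)) (i j : ℕ) : Bool := (M.getD i []).getD j false

/-- the vertices of a five-cycle given by the list of its edges -/
def verts (E : List (ℕ × ℕ)) : List ℕ := E.map (fun p => p.1)

/-- the target graph -/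
def tgt (M : List (List Bool)) (E : List (ℕ × ℕ)) (K : List ℕ) (i j : ℕ) : Bool :=
  decide ((i, j) ∈ E) || (decide ((j, i) ∈ E) || ((decide (i ∈ K) && (decide (j ∈ K) &&
    !decide (i = j))) || ((decide (i ∈ K) && decide (j ∈ verts E)) ||
      ((decide (j ∈ K) && decide (i ∈ verts E)) ||
        (ent M i j && (decide (i ∈ K) || decide (j ∈ K)))))))

/-- the number of ordered pairs in which the target differs from the graph -/
def cost (M : List (List Bool)) (E : List (ℕ × ℕ)) (K : List ℕ) : ℕ :=
  ((List.range M.length).map fun i => ((List.range M.length).map fun j =>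
    if xor (ent M i j) (tgt M E K i j) = true then 1 else 0).sum).sum

/-- the number of neighbours of a vertex, those on the five-cycle counted twice -/
def key (M : List (List Bool)) (E : List (ℕ × ℕ)) (x : ℕ) : ℕ :=
  ((List.range M.length).map fun j =>
    if ent M x j = true then (if j ∈ verts E then 2 else 1) else 0).sum

/-- the weight of a vertex -/
def wt (M : List (List Bool)) (E : List (ℕ × ℕ)) (x : ℕ) : ℕ :=
  key M E x * (M.length * M.length + 1) + (M.length - x)

/-- the candidates for the clique -/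
def cand (M : List (List Bool)) (E : List (ℕ × ℕ)) : List (List ℕ) :=
  [] :: (List.range M.length).map (fun v =>
    (List.range M.length).filter (fun x => !decide (x ∈ verts E) && decide (wt M E v ≤ wt M E x)))

/-- a five-cycle on five given numbers -/
def mkE (q : ℕ × ℕ × ℕ × ℕ × ℕ) : List (ℕ × ℕ) :=
  [(q.1, q.2.1), (q.2.1, q.2.2.1), (q.2.2.1, q.2.2.2.1), (q.2.2.2.1, q.2.2.2.2),
    (q.2.2.2.2, q.1)]

/-- five different numbers -/
def okQ (q : ℕ × ℕ × ℕ × ℕ × ℕ) : Bool :=
  !decide (q.1 = q.2.1) && (!decide (q.1 = q.2.2.1) && (!decide (q.1 = q.2.2.2.1) &&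
  (!decide (q.1 = q.2.2.2.2) && (!decide (q.2.1 = q.2.2.1) && (!decide (q.2.1 = q.2.2.2.1) &&
  (!decide (q.2.1 = q.2.2.2.2) && (!decide (q.2.2.1 = q.2.2.2.1) &&
  (!decide (q.2.2.1 = q.2.2.2.2) && !decide (q.2.2.2.1 = q.2.2.2.2)))))))))

/-- the candidates for the five-cycle -/
def cycs (M : List (List Bool)) : List (List (ℕ × ℕ)) :=
  [] :: ((List.range M.length ×ˢ (List.range M.length ×ˢ (List.range M.length ×ˢ
    (List.range M.length ×ˢ List.range M.length)))).filter okQ).map mkE

/-- the algorithm -/
def alg (x : List (List Bool) × ℕ) : Bool :=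
  (cycs x.1).any fun E => (cand x.1 E).any fun K => decide (cost x.1 E K ≤ 2 * x.2)

theorem poly_rangeLen {α β : Type} [TEnc α] [TEnc β] {l : α → List β} (hl : Poly l) :
    Poly (fun a => List.range (l a).length) := Poly.range_length hl

attribute [local fun_prop] poly_rangeLen

theorem poly_ent {α : Type} [TEnc α] {M : α → List (List Bool)} {i j : α → ℕ} (hM : Poly M)
    (hi : Poly i) (hj : Poly j) : Poly (fun a => ent (M a) (i a) (j a)) := by
  unfold ent
  fun_prop

theorem poly_verts {α : Type} [TEnc α] {E : α → List (ℕ × ℕ)} (hE : Poly E) :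
    Poly (fun a => verts (E a)) := by
  unfold verts
  fun_prop

attribute [local fun_prop] poly_ent poly_verts

theorem poly_tgt {α : Type} [TEnc α] {M : α → List (List Bool)} {E : α → List (ℕ × ℕ)}
    {K : α → List ℕ} {i j : α → ℕ} (hM : Poly M)
    (hE : Poly E) (hK : Poly K) (hi : Poly i) (hj : Poly j) :
    Poly (fun a => tgt (M a) (E a) (K a) (i a) (j a)) := by
  unfold tgt
  fun_prop

attribute [local fun_prop] poly_tgt

theorem poly_cost {α : Type} [TEnc α] {M : α → List (List Bool)} {E : α → List (ℕ × ℕ)}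
    {K : α → List ℕ} (hM : Poly M) (hE : Poly E) (hK : Poly K) :
    Poly (fun a => cost (M a) (E a) (K a)) := by
  unfold cost
  fun_prop

theorem poly_key {α : Type} [TEnc α] {M : α → List (List Bool)} {E : α → List (ℕ × ℕ)}
    {x : α → ℕ} (hM : Poly M) (hE : Poly E) (hx : Poly x) :
    Poly (fun a => key (M a) (E a) (x a)) := by
  unfold key
  fun_prop

attribute [local fun_prop] poly_cost poly_key

theorem poly_wt {α : Type} [TEnc α] {M : α → List (List Bool)} {E : α → List (ℕ × ℕ)}
    {x : α → ℕ} (hM : Poly M) (hE : Poly E) (hx : Poly x) :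
    Poly (fun a => wt (M a) (E a) (x a)) := by
  unfold wt
  fun_prop

attribute [local fun_prop] poly_wt

theorem poly_cand {α : Type} [TEnc α] {M : α → List (List Bool)} {E : α → List (ℕ × ℕ)}
    (hM : Poly M) (hE : Poly E) : Poly (fun a => cand (M a) (E a)) := by
  unfold cand
  fun_prop

theorem poly_mkE {α : Type} [TEnc α] {q : α → ℕ × ℕ × ℕ × ℕ × ℕ} (hq : Poly q) :
    Poly (fun a => mkE (q a)) := by
  unfold mkE
  fun_prop

theorem poly_okQ {α : Type} [TEnc α] {q : α → ℕ × ℕ × ℕ × ℕ × ℕ} (hq : Poly q) :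
    Poly (fun a => okQ (q a)) := by
  unfold okQ
  fun_prop

attribute [local fun_prop] poly_cand poly_mkE poly_okQ

theorem poly_cycs {α : Type} [TEnc α] {M : α → List (List Bool)} (hM : Poly M) :
    Poly (fun a => cycs (M a)) := by
  unfold cycs
  refine NPC.Poly.cons (NPC.Poly.const _) (NPC.Poly.map (F := fun _ q => mkE q) (NPC.Poly.filter
    (p := fun _ q => okQ q) ?_ ?_) ?_)
  · fun_prop
  · fun_prop
  · fun_prop

attribute [local fun_prop] poly_cycs

theorem poly_alg : Poly alg := by
  unfold alg
  fun_prop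

end Pool.Agent.R546.EM
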