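import Pool.Agent.R546.EM.Struct

/-!
# Split graphs and their relatives have no induced `C₄` and `2 K₂`
-/

set_option autoImplicit false

namespace Pool.Agent.R546.EM

variable {V : Type} {R : V → V → Prop}

theorem noC4_of_split {K : Set V} (h : IsSplitW R K) : NoC4 R := by
  intro a b c d hab hbc hcd hda hac hbd h1 h2
  obtain ⟨hK, hI⟩ := h
  by_cases ha : a ∈ K
  · by_cases hc : c ∈ K
    · exact h1 (hK a ha c hc hac)
    · by_cases hb : b ∈ K
      · by_cases hd : d ∈ K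
        · exact h2 (hK b hb d hd hbd)
        · exact hI c hc d hd hcd
      · exact hI b hb c hc hbc
  · by_cases hb : b ∈ K
    · by_cases hd : d ∈ K
      · exact h2 (hK b hb d hd hbd)
      · exact hI d hd a ha hda
    · exact hI a ha b hb hab

theorem no2K2_of_split {K : Set V} (h : IsSplitW R K) : No2K2 R := by
  intro a b c d hab hcd hac had hbc hbd h1 h2 h3 h4
  obtain ⟨hK, hI⟩ := h
  by_cases ha : a ∈ K
  · by_cases hc : c ∈ K
    · exact h1 (hK a ha c hc hac)
    · by_cases hd : d ∈ K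
      · exact h2 (hK a ha d hd had)
      · exact hI c hc d hd hcd
  · by_cases hb : b ∈ K
    · by_cases hc : c ∈ K
      · exact h3 (hK b hb c hc hbc)
      · by_cases hd : d ∈ K
        · exact h4 (hK b hb d hd hbd)
        · exact hI c hc d hd hcd
    · exact hI a ha b hb hab

theorem cyc5_noC4 : ∀ a b c d : Fin 5, cyc5 a b → cyc5 b c → cyc5 c d → cyc5 d a → a ≠ c → b ≠ d →
    ¬ cyc5 a c → ¬ cyc5 b d → False := by
  decide

theorem cyc5_no2K2 : ∀ a b c d : Fin 5, cyc5 a b → cyc5 c d → a ≠ c → a ≠ d → b ≠ c → b ≠ d →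
    ¬ cyc5 a c → ¬ cyc5 a d → ¬ cyc5 b c → ¬ cyc5 b d → False := by
  decide

section

variable {K : Set V} {s : Fin 5 → V}

/-- the neighbours of a vertex outside `K` and outside the five-cycle are in `K` -/
theorem C5W_nbr (hs : ∀ x y, R x y → R y x) (h : IsC5W R s K) {x y : V} (hxK : x ∉ K)
    (hxs : ∀ i, x ≠ s i) (hxy : R x y) : y ∈ K := by
  obtain ⟨h1, h2, h3, h4, h5⟩ := h
  by_contra hy
  by_cases hys : ∀ i, y ≠ s i
  · exact h4 x hxK hxs y hy hys hxy
  · push Not at hys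
    obtain ⟨i, rfl⟩ := hys
    exact h5 x hxK hxs i hxy

/-- the non-neighbours of a vertex of `K` are outside `K` and outside the five-cycle -/
theorem C5W_non (h : IsC5W R s K) {x y : V} (hxK : x ∈ K)
    (hne : x ≠ y) (hxy : ¬ R x y) : y ∉ K ∧ ∀ i, y ≠ s i := by
  obtain ⟨h1, h2, h3, h4, h5⟩ := h
  refine ⟨fun hy => hxy (h2 x hxK y hy hne), fun i hi => ?_⟩
  subst hi
  exact hxy (h3 x hxK i)

theorem noC4_of_C5W (hs : ∀ x y, R x y → R y x) (h5 : IsC5 R s) (h : IsC5W R s K) :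
    NoC4 R := by
  -- no vertex of a four-cycle is in `K`
  have key : ∀ a b c d, R a b → R b c → R c d → R d a → a ≠ c → b ≠ d → ¬ R a c → ¬ R b d →
      a ∉ K := by
    intro a b c d hab hbc hcd hda hac hbd h1 h2 ha
    obtain ⟨hcK, hcs⟩ := C5W_non h ha hac h1
    exact h2 (h.2.1 b (C5W_nbr hs h hcK hcs (hs _ _ hbc)) d (C5W_nbr hs h hcK hcs hcd) hbd)
  intro a b c d hab hbc hcd hda hac hbd h1 h2
  have ha := key a b c d hab hbc hcd hda hac hbd h1 h2
  have hb := key b c d a hbc hcd hda hab hbd hac.symm h2 (fun h => h1 (hs _ _ h))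
  have hc := key c d a b hcd hda hab hbc hac.symm hbd.symm (fun h => h1 (hs _ _ h))
    (fun h => h2 (hs _ _ h))
  have hd := key d a b c hda hab hbc hcd hbd.symm hac (fun h => h2 (hs _ _ h)) h1
  have key2 : ∀ x y, R x y → x ∉ K → y ∉ K → ∃ i, x = s i := by
    intro x y hxy hx hy
    by_contra hcon
    push Not at hcon
    exact hy (C5W_nbr hs h hx hcon hxy)
  obtain ⟨i, rfl⟩ := key2 a b hab ha hb
  obtain ⟨j, rfl⟩ := key2 b c hbc hb hc
  obtain ⟨k, rfl⟩ := key2 c d hcd hc hd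
  obtain ⟨l, rfl⟩ := key2 d _ hda hd ha
  rw [h5.2] at hab hbc hcd hda h1 h2
  exact cyc5_noC4 i j k l hab hbc hcd hda (fun h => hac (by rw [h])) (fun h => hbd (by rw [h]))
    h1 h2

theorem no2K2_of_C5W (hs : ∀ x y, R x y → R y x) (h5 : IsC5 R s) (h : IsC5W R s K) :
    No2K2 R := by
  have key : ∀ a b c d, R a b → R c d → a ≠ c → a ≠ d → ¬ R a c → ¬ R a d →
      a ∉ K := by
    intro a b c d hab hcd hac had h1 h2 ha
    obtain ⟨hcK, hcs⟩ := C5W_non h ha hac h1
    obtain ⟨hdK, hds⟩ := C5W_non h ha had h2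
    exact hdK (C5W_nbr hs h hcK hcs hcd)
  intro a b c d hab hcd hac had hbc hbd h1 h2 h3 h4
  have ha := key a b c d hab hcd hac had h1 h2
  have hb := key b a c d (hs _ _ hab) hcd hbc hbd h3 h4
  have hc := key c d a b hcd hab hac.symm hbc.symm (fun h => h1 (hs _ _ h))
    (fun h => h3 (hs _ _ h))
  have hd := key d c a b (hs _ _ hcd) hab had.symm hbd.symm (fun h => h2 (hs _ _ h))
    (fun h => h4 (hs _ _ h))
  have key2 : ∀ x y, R x y → x ∉ K → y ∉ K → ∃ i, x = s i := by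
    intro x y hxy hx hy
    by_contra hcon
    push Not at hcon
    exact hy (C5W_nbr hs h hx hcon hxy)
  obtain ⟨i, rfl⟩ := key2 a b hab ha hb
  obtain ⟨j, rfl⟩ := key2 b _ (hs _ _ hab) hb ha
  obtain ⟨k, rfl⟩ := key2 c d hcd hc hd
  obtain ⟨l, rfl⟩ := key2 d _ (hs _ _ hcd) hd hc
  rw [h5.2] at hab hcd h1 h2 h3 h4
  exact cyc5_no2K2 i j k l hab hcd (fun h => hac (by rw [h])) (fun h => had (by rw [h]))
    (fun h => hbc (by rw [h])) (fun h => hbd (by rw [h])) h1 h2 h3 h4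

end

end Pool.Agent.R546.EM
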