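import Pool.Agent.R546.EM.Count
import Pool.Agent.R546.EM.Conv

/-!
# Correctness of the algorithm
-/

set_option autoImplicit false

namespace Pool.Agent.R546.EM

open Pool.Agent.NPC Pool.Agent.NPC.R671

theorem adjMatrix_length {n : ℕ} (G : SimpleGraph (Fin n)) : (adjMatrix G).length = n := by
  simp [adjMatrix]

theorem ent_adjMatrix {n : ℕ} (G : SimpleGraph (Fin n)) (i j : Fin n) :
    ent (adjMatrix G) i j = true ↔ G.Adj i j := by
  classical
  unfold ent adjMatrix
  simp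

theorem sum_range_map (n : ℕ) (f : ℕ → ℕ) :
    ((List.range n).map f).sum = ∑ i : Fin n, f i := by
  rw [← Finset.sum_range]
  rfl

theorem sum_formula {n : ℕ} (χ σ : Fin n → ℤ) (A base : Fin n → Fin n → ℤ)
    (hA : ∀ i j, A i j = A j i) :
    ∑ i, ∑ j, (base i j + χ i * σ j + χ j * σ i - χ i * σ j * A i j - χ j * σ i * A i j +
      χ i * χ j - (if i = j then χ i else 0) - χ i * A i j - χ j * A i j) =
    ∑ i, ∑ j, base i j + 2 * (∑ i, χ i) * (∑ i, σ i) + (∑ i, χ i) ^ 2 - ∑ i, χ i -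
      2 * ∑ i, χ i * ∑ j, (1 + σ j) * A i j := by
  simp only [Finset.sum_add_distrib, Finset.sum_sub_distrib]
  have e1 : ∑ i, ∑ j, χ i * σ j = (∑ i, χ i) * (∑ i, σ i) := by rw [Finset.sum_mul_sum]
  have e2 : ∑ i, ∑ j, χ j * σ i = (∑ i, χ i) * (∑ i, σ i) := by
    rw [Finset.sum_comm, Finset.sum_mul_sum]
  have e3 : ∑ i, ∑ j, χ j * σ i * A i j = ∑ i, ∑ j, χ i * σ j * A i j := by
    rw [Finset.sum_comm]
    refine Finset.sum_congr rfl fun i _ => Finset.sum_congr rfl fun j _ => ?_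
    rw [hA]
  have e4 : ∑ i, ∑ j, χ i * χ j = (∑ i, χ i) ^ 2 := by rw [sq, Finset.sum_mul_sum]
  have e5 : ∑ i : Fin n, ∑ j : Fin n, (if i = j then χ i else 0) = ∑ i, χ i := by
    simp
  have e6 : ∑ i, ∑ j, χ j * A i j = ∑ i, ∑ j, χ i * A i j := by
    rw [Finset.sum_comm]
    refine Finset.sum_congr rfl fun i _ => Finset.sum_congr rfl fun j _ => ?_
    rw [hA]
  have e7 : ∑ i, χ i * ∑ j, (1 + σ j) * A i j =
      ∑ i, ∑ j, χ i * A i j + ∑ i, ∑ j, χ i * σ j * A i j := by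
    rw [← Finset.sum_add_distrib]
    refine Finset.sum_congr rfl fun i _ => ?_
    rw [Finset.mul_sum, ← Finset.sum_add_distrib]
    refine Finset.sum_congr rfl fun j _ => ?_
    ring
  rw [e1, e2, e3, e4, e5, e6, e7]
  ring

/-- the characteristic function of a list -/
def chi {n : ℕ} (K : List ℕ) (i : Fin n) : ℤ := if (i : ℕ) ∈ K then 1 else 0

/-- the part of the cost which does not depend on `K` -/
def base {n : ℕ} (M : List (List Bool)) (E : List (ℕ × ℕ)) (i j : Fin n) : ℤ :=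
  if (i : ℕ) ∈ verts E ∧ (j : ℕ) ∈ verts E then
    (if xor (ent M i j) (decide (((i : ℕ), (j : ℕ)) ∈ E) || decide (((j : ℕ), (i : ℕ)) ∈ E)) = true
      then 1 else 0)
  else (if ent M i j = true then 1 else 0)

theorem cost_formula {n : ℕ} (G : SimpleGraph (Fin n)) (E : List (ℕ × ℕ)) (K : List ℕ)
    (hE : ∀ i j, (i, j) ∈ E → i ∈ verts E ∧ j ∈ verts E) (hK : ∀ i ∈ K, i ∉ verts E) :
    (cost (adjMatrix G) E K : ℤ) = ∑ i : Fin n, ∑ j : Fin n, base (adjMatrix G) E i j +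
      2 * (∑ i : Fin n, chi K i) * (∑ i : Fin n, chi (verts E) i) +
      (∑ i : Fin n, chi K i) ^ 2 - ∑ i : Fin n, chi K i -
      2 * ∑ i : Fin n, chi K i * (key (adjMatrix G) E i : ℤ) := by
  have hsym : ∀ i j : Fin n, ent (adjMatrix G) i j = ent (adjMatrix G) j i := by
    intro i j
    rw [Bool.eq_iff_iff, ent_adjMatrix, ent_adjMatrix, G.adj_comm]
  have hirr : ∀ i : Fin n, ent (adjMatrix G) i i = false := by
    intro i
    rw [Bool.eq_false_iff, ne_eq, ent_adjMatrix]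
    exact G.irrefl
  have hkey : ∀ i : Fin n, (key (adjMatrix G) E i : ℤ) = ∑ j : Fin n, (1 + chi (verts E) j) *
      (if ent (adjMatrix G) i j = true then 1 else 0) := by
    intro i
    unfold key
    rw [adjMatrix_length, sum_range_map, Nat.cast_sum]
    refine Finset.sum_congr rfl fun j _ => ?_
    unfold chi
    by_cases h1 : ent (adjMatrix G) i j = true <;> by_cases h2 : (j : ℕ) ∈ verts E <;>
      simp [h1, h2]
  simp only [hkey]
  rw [← sum_formula (chi K) (chi (verts E)) (fun i j : Fin n =>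
    if ent (adjMatrix G) i j = true then 1 else 0) (base (adjMatrix G) E)
    (fun i j => by simp only [hsym i j])]
  unfold cost
  rw [adjMatrix_length, sum_range_map, Nat.cast_sum]
  refine Finset.sum_congr rfl fun i _ => ?_
  rw [sum_range_map, Nat.cast_sum]
  refine Finset.sum_congr rfl fun j _ => ?_
  unfold chi base tgt
  by_cases h0 : i = j
  · subst h0
    by_cases h1 : (i : ℕ) ∈ K
    · have h2 := hK _ h1
      have h3 : ((i : ℕ), (i : ℕ)) ∉ E := fun h => h2 (hE _ _ h).1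
      simp [h1, h2, h3, hirr]
    · by_cases h2 : (i : ℕ) ∈ verts E
      · simp [h1, h2, hirr]
      · have h3 : ((i : ℕ), (i : ℕ)) ∉ E := fun h => h2 (hE _ _ h).1
        simp [h1, h2, h3, hirr]
  · have h0' : (i : ℕ) ≠ j := fun h => h0 (Fin.ext h)
    by_cases h1 : (i : ℕ) ∈ K
    · have h2 := hK _ h1
      have h3 : ((i : ℕ), (j : ℕ)) ∉ E := fun h => h2 (hE _ _ h).1
      have h4 : ((j : ℕ), (i : ℕ)) ∉ E := fun h => h2 (hE _ _ h).2
      by_cases h5 : (j : ℕ) ∈ K
      · have h6 := hK _ h5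
        cases h7 : ent (adjMatrix G) i j <;> simp [h0, h0', h1, h2, h3, h4, h5, h6]
      · by_cases h6 : (j : ℕ) ∈ verts E <;>
          cases h7 : ent (adjMatrix G) i j <;> simp [h0, h1, h2, h3, h4, h5, h6]
    · by_cases h5 : (j : ℕ) ∈ K
      · have h6 := hK _ h5
        have h3 : ((i : ℕ), (j : ℕ)) ∉ E := fun h => h6 (hE _ _ h).2
        have h4 : ((j : ℕ), (i : ℕ)) ∉ E := fun h => h6 (hE _ _ h).1
        by_cases h2 : (i : ℕ) ∈ verts E <;>
          cases h7 : ent (adjMatrix G) i j <;> simp [h0, h1, h2, h3, h4, h5, h6]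
      · by_cases h2 : (i : ℕ) ∈ verts E
        · by_cases h6 : (j : ℕ) ∈ verts E
          · simp [h0, h1, h2, h5, h6]
          · have h3 : ((i : ℕ), (j : ℕ)) ∉ E := fun h => h6 (hE _ _ h).2
            have h4 : ((j : ℕ), (i : ℕ)) ∉ E := fun h => h6 (hE _ _ h).1
            simp [h0, h1, h2, h3, h4, h5, h6]
        · have h3 : ((i : ℕ), (j : ℕ)) ∉ E := fun h => h2 (hE _ _ h).1
          have h4 : ((j : ℕ), (i : ℕ)) ∉ E := fun h => h2 (hE _ _ h).2
          by_cases h6 : (j : ℕ) ∈ verts E <;> simp [h0, h1, h2, h3, h4, h5, h6]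

end Pool.Agent.R546.EM
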