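import Pool.Agent.R546.EM.Corr

/-!
# Correctness of the algorithm, continued
-/

set_option autoImplicit false

namespace Pool.Agent.R546.EM

open Pool.Agent.NPC Pool.Agent.NPC.R671

theorem cost_congr {n : ℕ} (G : SimpleGraph (Fin n)) (E : List (ℕ × ℕ)) (K L : List ℕ)
    (h : ∀ i : Fin n, (i : ℕ) ∈ K ↔ (i : ℕ) ∈ L) :
    cost (adjMatrix G) E K = cost (adjMatrix G) E L := by
  unfold cost
  rw [adjMatrix_length, sum_range_map, sum_range_map]
  refine Finset.sum_congr rfl fun i _ => ?_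
  rw [sum_range_map, sum_range_map]
  refine Finset.sum_congr rfl fun j _ => ?_
  unfold tgt
  simp only [h]

/-- a set of vertices as a list of numbers -/
noncomputable def lst {n : ℕ} (K : Finset (Fin n)) : List ℕ := (K.image Fin.val).toList

theorem mem_lst {n : ℕ} (K : Finset (Fin n)) (i : ℕ) : i ∈ lst K ↔ ∃ x ∈ K, (x : ℕ) = i := by
  simp [lst]

theorem mem_lst' {n : ℕ} (K : Finset (Fin n)) (i : Fin n) : (i : ℕ) ∈ lst K ↔ i ∈ K := by
  rw [mem_lst]
  constructor
  · rintro ⟨x, hx, h⟩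
    rwa [← Fin.ext h]
  · intro h
    exact ⟨i, h, rfl⟩

theorem sum_chi_lst {n : ℕ} (K : Finset (Fin n)) (f : Fin n → ℤ) :
    ∑ i : Fin n, chi (lst K) i * f i = ∑ i ∈ K, f i := by
  rw [← Finset.sum_filter_add_sum_filter_not Finset.univ (· ∈ K)]
  rw [Finset.sum_congr rfl (g := f), Finset.sum_eq_zero (s := Finset.univ.filter (· ∉ K))]
  · simp
  · intro i hi
    rw [Finset.mem_filter] at hi
    unfold chi
    rw [if_neg (by rw [mem_lst']; exact hi.2), zero_mul]
  · intro i hi
    rw [Finset.mem_filter] at hi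
    unfold chi
    rw [if_pos (by rw [mem_lst']; exact hi.2), one_mul]

theorem best {n : ℕ} (G : SimpleGraph (Fin n)) (E : List (ℕ × ℕ)) (K : Finset (Fin n))
    (hE : ∀ i j, (i, j) ∈ E → i ∈ verts E ∧ j ∈ verts E)
    (hK : ∀ i ∈ K, (i : ℕ) ∉ verts E) :
    ∃ L ∈ cand (adjMatrix G) E, cost (adjMatrix G) E L ≤ cost (adjMatrix G) E (lst K) := by
  classical
  set R : Finset (Fin n) := Finset.univ.filter (fun i => (i : ℕ) ∉ verts E) with hR
  have hKR : K ⊆ R := by
    intro i hi
    simp [hR, hK i hi]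
  obtain ⟨K', hK'R, hcard, hsum, hpre⟩ := prefix_exists R K hKR (fun x => key (adjMatrix G) E x)
  have hcost : cost (adjMatrix G) E (lst K') ≤ cost (adjMatrix G) E (lst K) := by
    have h1 := cost_formula G E (lst K') hE (by
      intro i hi
      obtain ⟨x, hx, rfl⟩ := (mem_lst _ _).1 hi
      have := hK'R hx
      simpa [hR] using this)
    have h2 := cost_formula G E (lst K) hE (by
      intro i hi
      obtain ⟨x, hx, rfl⟩ := (mem_lst _ _).1 hi
      exact hK x hx)
    have c1 : ∑ i : Fin n, chi (lst K') i = (K'.card : ℤ) := by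
      have := sum_chi_lst K' (fun _ => 1)
      simpa using this
    have c2 : ∑ i : Fin n, chi (lst K) i = (K.card : ℤ) := by
      have := sum_chi_lst K (fun _ => 1)
      simpa using this
    rw [sum_chi_lst K' (fun i => (key (adjMatrix G) E i : ℤ)), c1, hcard] at h1
    rw [sum_chi_lst K (fun i => (key (adjMatrix G) E i : ℤ)), c2] at h2
    have h3 : (∑ x ∈ K, (key (adjMatrix G) E x : ℤ)) ≤ ∑ x ∈ K', (key (adjMatrix G) E x : ℤ) := by
      exact_mod_cast hsum
    have : (cost (adjMatrix G) E (lst K') : ℤ) ≤ cost (adjMatrix G) E (lst K) := by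
      rw [h1, h2]; linarith
    exact_mod_cast this
  rcases hpre with rfl | ⟨v, rfl⟩
  · refine ⟨[], by simp [cand], ?_⟩
    rw [cost_congr G E [] (lst ∅) (by intro i; rw [mem_lst']; simp)]
    exact hcost
  · refine ⟨(List.range (adjMatrix G).length).filter (fun x => !decide (x ∈ verts E) &&
      decide (wt (adjMatrix G) E v ≤ wt (adjMatrix G) E x)), ?_, ?_⟩
    · unfold cand
      refine List.mem_cons_of_mem _ (List.mem_map.2 ⟨v, ?_, rfl⟩)
      rw [List.mem_range, adjMatrix_length]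
      exact v.2
    · refine le_trans (le_of_eq (cost_congr G E _ _ ?_)) hcost
      intro i
      rw [mem_lst', List.mem_filter, Finset.mem_filter, List.mem_range, adjMatrix_length]
      simp [wt, hR, adjMatrix_length]

theorem verts_mkE (q : ℕ × ℕ × ℕ × ℕ × ℕ) (i : ℕ) : i ∈ verts (mkE q) ↔
    i = q.1 ∨ i = q.2.1 ∨ i = q.2.2.1 ∨ i = q.2.2.2.1 ∨ i = q.2.2.2.2 := by
  simp [verts, mkE]

theorem mkE_verts (q : ℕ × ℕ × ℕ × ℕ × ℕ) (i j : ℕ) (h : (i, j) ∈ mkE q) :
    i ∈ verts (mkE q) ∧ j ∈ verts (mkE q) := by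
  rw [verts_mkE, verts_mkE]
  simp only [mkE, List.mem_cons, Prod.mk.injEq, List.not_mem_nil, or_false] at h
  tauto

theorem tgt_iff (M : List (List Bool)) (E : List (ℕ × ℕ)) (K : List ℕ) (i j : ℕ) :
    tgt M E K i j = true ↔ (i, j) ∈ E ∨ (j, i) ∈ E ∨ (i ∈ K ∧ j ∈ K ∧ i ≠ j) ∨
      (i ∈ K ∧ j ∈ verts E) ∨ (j ∈ K ∧ i ∈ verts E) ∨
      (ent M i j = true ∧ (i ∈ K ∨ j ∈ K)) := by
  unfold tgt
  simp

/-- the five-cycle on five vertices given by a function -/
def mkS {n : ℕ} (s : Fin 5 → Fin n) : ℕ × ℕ × ℕ × ℕ × ℕ := (s 0, s 1, s 2, s 3, s 4)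

theorem mem_mkS {n : ℕ} (s : Fin 5 → Fin n) (hs : Function.Injective s) (a b : Fin 5) :
    (((s a : Fin n) : ℕ), ((s b : Fin n) : ℕ)) ∈ mkE (mkS s) ↔ b = a + 1 := by
  have hn : ∀ i j : Fin 5, (((s i : Fin n) : ℕ) = s j) ↔ i = j := fun i j =>
    ⟨fun h => hs (Fin.ext h), fun h => by rw [h]⟩
  simp only [mkE, mkS, List.mem_cons, Prod.mk.injEq, List.not_mem_nil, or_false, hn]
  revert a b
  decide

theorem mem_verts_mkS {n : ℕ} (s : Fin 5 → Fin n) (i : Fin n) :
    (i : ℕ) ∈ verts (mkE (mkS s)) ↔ ∃ a, i = s a := by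
  rw [verts_mkE]
  simp only [mkS, Fin.ext_iff]
  constructor
  · rintro (h | h | h | h | h)
    exacts [⟨0, h⟩, ⟨1, h⟩, ⟨2, h⟩, ⟨3, h⟩, ⟨4, h⟩]
  · rintro ⟨a, ha⟩
    fin_cases a
    · exact Or.inl ha
    · exact Or.inr (Or.inl ha)
    · exact Or.inr (Or.inr (Or.inl ha))
    · exact Or.inr (Or.inr (Or.inr (Or.inl ha)))
    · exact Or.inr (Or.inr (Or.inr (Or.inr ha)))

/-- ordered pairs in which two graphs differ -/
noncomputable def dif {n : ℕ} (G G' : SimpleGraph (Fin n)) : ℕ :=
  ∑ i : Fin n, ∑ j : Fin n, (open Classical in if G.Adj i j ↔ G'.Adj i j then 0 else 1)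

theorem cost_le_dif {n : ℕ} (G G' : SimpleGraph (Fin n)) (E : List (ℕ × ℕ)) (K : List ℕ)
    (h : ∀ i j : Fin n, (G.Adj i j ↔ G'.Adj i j) →
      (tgt (adjMatrix G) E K i j = true ↔ G.Adj i j)) :
    cost (adjMatrix G) E K ≤ dif G G' := by
  classical
  unfold cost dif
  rw [adjMatrix_length, sum_range_map]
  refine Finset.sum_le_sum fun i _ => ?_
  rw [sum_range_map]
  refine Finset.sum_le_sum fun j _ => ?_
  by_cases h1 : G.Adj i j ↔ G'.Adj i j
  · have h2 := h i j h1
    rw [← ent_adjMatrix G i j, ← Bool.eq_iff_iff] at h2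
    rw [if_pos h1, h2]
    simp
  · rw [if_neg h1]
    split_ifs <;> simp

theorem dif_eq_cost {n : ℕ} (G G' : SimpleGraph (Fin n)) (E : List (ℕ × ℕ)) (K : List ℕ)
    (h : ∀ i j : Fin n, (tgt (adjMatrix G) E K i j = true ↔ G'.Adj i j)) :
    dif G G' = cost (adjMatrix G) E K := by
  classical
  unfold cost dif
  rw [adjMatrix_length, sum_range_map]
  refine Finset.sum_congr rfl fun i _ => ?_
  rw [sum_range_map]
  refine Finset.sum_congr rfl fun j _ => ?_
  have h2 := h i j
  have h3 := ent_adjMatrix G i j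
  rw [← h2, ← h3]
  cases ent (adjMatrix G) i j <;> cases tgt (adjMatrix G) E K i j <;> simp

theorem isFree_iff {n : ℕ} (G : SimpleGraph (Fin n)) :
    IsFree {C4, twoK2} G ↔ NoC4 G.Adj ∧ No2K2 G.Adj := by
  unfold IsFree
  simp only [Set.mem_insert_iff, Set.mem_singleton_iff, forall_eq_or_imp, forall_eq]
  rw [← isEmpty_C4, ← isEmpty_twoK2]

theorem solvable_iff {n : ℕ} (G : SimpleGraph (Fin n)) (k : ℕ) :
    Solvable .editing {C4, twoK2} G k ↔ ∃ G' : SimpleGraph (Fin n), dif G G' ≤ 2 * k ∧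
      NoC4 G'.Adj ∧ No2K2 G'.Adj := by
  unfold Solvable
  refine exists_congr fun G' => ?_
  rw [isFree_iff, ← Nat.mul_le_mul_left_iff (show 0 < 2 by norm_num), ncard_symmDiff]
  unfold dif Mode.Allows
  simp

theorem complete {n : ℕ} (G : SimpleGraph (Fin n)) (k : ℕ) (h : Solvable .editing {C4, twoK2} G k) :
    alg (adjMatrix G, k) = true := by
  classical
  obtain ⟨G', hk, h4, h2⟩ := (solvable_iff G k).1 h
  have main : ∀ (E : List (ℕ × ℕ)) (K : Finset (Fin n)), E ∈ cycs (adjMatrix G) →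
      (∀ i j, (i, j) ∈ E → i ∈ verts E ∧ j ∈ verts E) → (∀ i ∈ K, (i : ℕ) ∉ verts E) →
      (∀ i j : Fin n, (G.Adj i j ↔ G'.Adj i j) →
      (tgt (adjMatrix G) E (lst K) i j = true ↔ G.Adj i j)) → alg (adjMatrix G, k) = true := by
    intro E K hE hE2 hK ht
    obtain ⟨L, hL, hc⟩ := best G E K hE2 hK
    unfold alg
    rw [List.any_eq_true]
    refine ⟨E, hE, ?_⟩
    rw [List.any_eq_true]
    refine ⟨L, hL, ?_⟩
    rw [decide_eq_true_eq]
    exact le_trans hc (le_trans (cost_le_dif G G' E _ ht) hk)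
  rcases structure_thm (R := G'.Adj) (fun x y h => h.symm) (fun x => G'.irrefl) h4 h2 with
    ⟨K, hK1, hK2⟩ | ⟨s, K, hs, hK⟩
  · refine main [] K.toFinset (by simp [cycs]) (by simp) (by simp [verts]) ?_
    intro i j hij
    have h5 := ent_adjMatrix G i j
    have h6 := hK1 i
    have h7 := hK2 i
    unfold tgt
    by_cases hi : i ∈ K
    · by_cases hj : j ∈ K
      · by_cases h0 : i = j
        · subst h0
          simp [mem_lst', verts, hi, h5]
        · have h0' : (i : ℕ) ≠ j := fun h => h0 (Fin.ext h)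
          have h8 := hij.2 (h6 hi j hj h0)
          simp [mem_lst', verts, hi, hj, h0, h5, h8]
      · simp [mem_lst', verts, hi, hj, h5]
    · by_cases hj : j ∈ K
      · simp [mem_lst', verts, hi, hj, h5]
      · have h8 : ¬ G.Adj i j := fun h => h7 hi j hj (hij.1 h)
        simp [mem_lst', verts, hi, hj, h5, h8]
  · obtain ⟨hK0, hK1, hK2, hK3, hK4⟩ := hK
    have hn : ∀ i j : Fin 5, i ≠ j → ((s i : Fin n) : ℕ) ≠ s j := fun i j hij h =>
      hij (hs.1 (Fin.ext h))
    have hv := mem_verts_mkS s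
    refine main (mkE (mkS s)) K.toFinset ?_ (mkE_verts _) ?_ ?_
    · unfold cycs
      refine List.mem_cons_of_mem _ (List.mem_map.2 ⟨_, List.mem_filter.2 ⟨?_, ?_⟩, rfl⟩)
      · simp [mkS, List.mem_product, adjMatrix_length]
      · simp [mkS, okQ, hn]
    · intro i hi hi2
      obtain ⟨a, ha⟩ := (hv i).1 hi2
      exact hK0 i (by simpa using hi) a ha
    · intro i j hij
      rw [tgt_iff, mem_lst', mem_lst', Set.mem_toFinset, Set.mem_toFinset, ent_adjMatrix]
      by_cases hi : ∃ a, i = s a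
      · have hiK : i ∉ K := fun h => hi.elim fun a ha => hK0 i h a ha
        by_cases hj : ∃ b, j = s b
        · have hjK : j ∉ K := fun h => hj.elim fun a ha => hK0 j h a ha
          obtain ⟨a, rfl⟩ := hi
          obtain ⟨b, rfl⟩ := hj
          rw [mem_mkS s hs.1, mem_mkS s hs.1, hij, hs.2 a b]
          unfold cyc5
          tauto
        · have h1 := hj
          rw [← hv j] at h1
          have h2 : ((i : ℕ), (j : ℕ)) ∉ mkE (mkS s) := fun h => h1 (mkE_verts _ _ _ h).2
          have h3 : ((j : ℕ), (i : ℕ)) ∉ mkE (mkS s) := fun h => h1 (mkE_verts _ _ _ h).1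
          have h4 := (hv i).2 hi
          obtain ⟨a, rfl⟩ := hi
          by_cases hjK : j ∈ K
          · have h5 := (hK2 j hjK a).symm
            tauto
          · have h5 : ¬ G'.Adj (s a) j := fun h => hK4 j hjK (fun i h => hj ⟨i, h⟩) a h.symm
            tauto
      · have h1 := hi
        rw [← hv i] at h1
        have h2 : ((i : ℕ), (j : ℕ)) ∉ mkE (mkS s) := fun h => h1 (mkE_verts _ _ _ h).1
        have h3 : ((j : ℕ), (i : ℕ)) ∉ mkE (mkS s) := fun h => h1 (mkE_verts _ _ _ h).2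
        by_cases hj : ∃ b, j = s b
        · have hjK : j ∉ K := fun h => hj.elim fun a ha => hK0 j h a ha
          have h4 := (hv j).2 hj
          obtain ⟨b, rfl⟩ := hj
          by_cases hiK : i ∈ K
          · have h5 := hK2 i hiK b
            tauto
          · have h5 : ¬ G'.Adj i (s b) := fun h => hK4 i hiK (fun i h => hi ⟨i, h⟩) b h
            tauto
        · have h4 := hj
          rw [← hv j] at h4
          by_cases hiK : i ∈ K
          · by_cases hjK : j ∈ K
            · by_cases h0 : i = j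
              · subst h0
                tauto
              · have h0' : (i : ℕ) ≠ j := fun h => h0 (Fin.ext h)
                have h5 := hK1 i hiK j hjK h0
                tauto
            · tauto
          · by_cases hjK : j ∈ K
            · tauto
            · have h5 := hK3 i hiK (fun a h => hi ⟨a, h⟩) j hjK (fun a h => hj ⟨a, h⟩)
              tauto

theorem cand_spec {n : ℕ} {G : SimpleGraph (Fin n)} {E : List (ℕ × ℕ)} {K : List ℕ}
    (hK : K ∈ cand (adjMatrix G) E) : ∀ i ∈ K, i < n ∧ i ∉ verts E := by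
  unfold cand at hK
  rcases List.mem_cons.1 hK with rfl | hK
  · simp
  · obtain ⟨v, -, rfl⟩ := List.mem_map.1 hK
    intro i hi
    rw [List.mem_filter, List.mem_range, adjMatrix_length] at hi
    simp only [Bool.and_eq_true, Bool.not_eq_true', decide_eq_false_iff_not] at hi
    exact ⟨hi.1, hi.2.1⟩

theorem cycs_spec {n : ℕ} {G : SimpleGraph (Fin n)} {E : List (ℕ × ℕ)}
    (hE : E ∈ cycs (adjMatrix G)) : E = [] ∨ ∃ s : Fin 5 → Fin n, Function.Injective s ∧
      E = mkE (mkS s) := by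
  unfold cycs at hE
  rcases List.mem_cons.1 hE with rfl | hE
  · exact Or.inl rfl
  · right
    obtain ⟨⟨a, b, c, d, e⟩, hq, rfl⟩ := List.mem_map.1 hE
    rw [List.mem_filter] at hq
    obtain ⟨hq1, hq2⟩ := hq
    simp only [List.mem_product, List.mem_range, adjMatrix_length] at hq1
    obtain ⟨ha, hb, hc, hd, he⟩ := hq1
    simp only [okQ, Bool.and_eq_true, Bool.not_eq_true', decide_eq_false_iff_not] at hq2
    obtain ⟨h1, h2, h3, h4, h5, h6, h7, h8, h9, h10⟩ := hq2
    refine ⟨![⟨a, ha⟩, ⟨b, hb⟩, ⟨c, hc⟩, ⟨d, hd⟩, ⟨e, he⟩], ?_, rfl⟩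
    intro i j hij
    fin_cases i <;> fin_cases j <;> first | rfl | (exfalso; simp at hij; omega)

theorem sound {n : ℕ} (G : SimpleGraph (Fin n)) (k : ℕ) (h : alg (adjMatrix G, k) = true) :
    Solvable .editing {C4, twoK2} G k := by
  classical
  unfold alg at h
  rw [List.any_eq_true] at h
  obtain ⟨E, hE, h⟩ := h
  rw [List.any_eq_true] at h
  obtain ⟨K, hK, h⟩ := h
  rw [decide_eq_true_eq] at h
  have hKs := cand_spec hK
  have hsym : ∀ i j : Fin n, tgt (adjMatrix G) E K i j = true →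
      tgt (adjMatrix G) E K j i = true := by
    intro i j hij
    rw [tgt_iff] at hij ⊢
    have := ent_adjMatrix G i j
    have := ent_adjMatrix G j i
    have := G.adj_comm i j
    have : (i : ℕ) ≠ j → (j : ℕ) ≠ i := fun h => h.symm
    tauto
  have hirr : ∀ i : Fin n, ¬ tgt (adjMatrix G) E K i i = true := by
    intro i hi
    rw [tgt_iff] at hi
    have h1 := ent_adjMatrix G i i
    have h2 := G.irrefl (v := i)
    have h3 := hKs i
    have h4 : ((i : ℕ), (i : ℕ)) ∉ E := by
      rcases cycs_spec hE with rfl | ⟨s, hs, rfl⟩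
      · simp
      · intro h
        obtain ⟨a, rfl⟩ := (mem_verts_mkS s i).1 (mkE_verts _ _ _ h).1
        rw [mem_mkS s hs] at h
        exact (show ∀ a : Fin 5, ¬ a = a + 1 by decide) a h
    tauto
  let G' : SimpleGraph (Fin n) :=
    { Adj := fun i j => tgt (adjMatrix G) E K i j = true
      symm := ⟨fun i j h => hsym i j h⟩
      loopless := ⟨fun i h => hirr i h⟩ }
  rw [solvable_iff]
  refine ⟨G', ?_, ?_⟩
  · rw [dif_eq_cost G G' E K (fun i j => Iff.rfl)]
    exact h
  · rcases cycs_spec hE with rfl | ⟨s, hs, rfl⟩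
    · have hsplit : IsSplitW G'.Adj {i | (i : ℕ) ∈ K} := by
        constructor
        · intro x hx y hy hxy
          change tgt _ _ _ _ _ = true
          rw [tgt_iff]
          exact Or.inr (Or.inr (Or.inl ⟨hx, hy, fun h => hxy (Fin.ext h)⟩))
        · intro x hx y hy hxy
          change tgt _ _ _ _ _ = true at hxy
          rw [tgt_iff] at hxy
          simp only [Set.mem_ofPred_eq] at hx hy
          simp [hx, hy] at hxy
      exact ⟨noC4_of_split hsplit, no2K2_of_split hsplit⟩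
    · have hsK : ∀ a, ((s a : Fin n) : ℕ) ∉ K := fun a ha =>
        (hKs _ ha).2 ((mem_verts_mkS s _).2 ⟨a, rfl⟩)
      have hC : IsC5 G'.Adj s := by
        refine ⟨hs, fun a b => ?_⟩
        change tgt _ _ _ _ _ = true ↔ _
        rw [tgt_iff, mem_mkS s hs, mem_mkS s hs]
        have h1 := hsK a
        have h2 := hsK b
        unfold cyc5
        tauto
      have hW : IsC5W G'.Adj s {i | (i : ℕ) ∈ K} := by
        refine ⟨?_, ?_, ?_, ?_, ?_⟩
        · rintro x hx i rfl
          exact hsK i hx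
        · intro x hx y hy hxy
          change tgt _ _ _ _ _ = true
          rw [tgt_iff]
          exact Or.inr (Or.inr (Or.inl ⟨hx, hy, fun h => hxy (Fin.ext h)⟩))
        · intro x hx i
          change tgt _ _ _ _ _ = true
          rw [tgt_iff]
          exact Or.inr (Or.inr (Or.inr (Or.inl ⟨hx, (mem_verts_mkS s _).2 ⟨i, rfl⟩⟩)))
        · intro x hx hxs y hy hys hxy
          change tgt _ _ _ _ _ = true at hxy
          rw [tgt_iff] at hxy
          simp only [Set.mem_ofPred_eq] at hx hy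
          have h1 : (x : ℕ) ∉ verts (mkE (mkS s)) := by
            rw [mem_verts_mkS]; push Not; exact hxs
          have h2 : ((x : ℕ), (y : ℕ)) ∉ mkE (mkS s) := fun h => h1 (mkE_verts _ _ _ h).1
          have h3 : ((y : ℕ), (x : ℕ)) ∉ mkE (mkS s) := fun h => h1 (mkE_verts _ _ _ h).2
          tauto
        · intro x hx hxs i hxy
          change tgt _ _ _ _ _ = true at hxy
          rw [tgt_iff] at hxy
          simp only [Set.mem_ofPred_eq] at hx
          have h1 : (x : ℕ) ∉ verts (mkE (mkS s)) := by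
            rw [mem_verts_mkS]; push Not; exact hxs
          have h2 : ((x : ℕ), ((s i : Fin n) : ℕ)) ∉ mkE (mkS s) :=
            fun h => h1 (mkE_verts _ _ _ h).1
          have h3 : (((s i : Fin n) : ℕ), (x : ℕ)) ∉ mkE (mkS s) :=
            fun h => h1 (mkE_verts _ _ _ h).2
          have h4 := hsK i
          tauto
      have hs' : ∀ x y, G'.Adj x y → G'.Adj y x := fun x y h => h.symm
      exact ⟨noC4_of_C5W hs' hC hW, no2K2_of_C5W hs' hC hW⟩

theorem alg_iff {n : ℕ} (G : SimpleGraph (Fin n)) (k : ℕ) :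
    alg (adjMatrix G, k) = true ↔ Solvable .editing {C4, twoK2} G k :=
  ⟨sound G k, complete G k⟩

end Pool.Agent.R546.EM
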