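import Mathlib

/-!
# The structure of graphs without induced `C₄` and `2 K₂`
-/

set_option autoImplicit false

namespace Pool.Agent.R546.EM

variable {V : Type}

/-- no induced cycle on four vertices -/
def NoC4 (R : V → V → Prop) : Prop :=
  ∀ a b c d, R a b → R b c → R c d → R d a → a ≠ c → b ≠ d → ¬ R a c → ¬ R b d → False

/-- no induced pair of disjoint edges -/
def No2K2 (R : V → V → Prop) : Prop :=
  ∀ a b c d, R a b → R c d → a ≠ c → a ≠ d → b ≠ c → b ≠ d →
    ¬ R a c → ¬ R a d → ¬ R b c → ¬ R b d → False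

/-- the adjacency of the five-cycle -/
def cyc5 (i j : Fin 5) : Prop := j = i + 1 ∨ i = j + 1

instance : DecidableRel cyc5 := fun i j => inferInstanceAs (Decidable (j = i + 1 ∨ i = j + 1))

/-- `s` is an induced five-cycle -/
def IsC5 (R : V → V → Prop) (s : Fin 5 → V) : Prop :=
  Function.Injective s ∧ ∀ i j, R (s i) (s j) ↔ cyc5 i j

/-- `K` is a clique, its complement is independent -/
def IsSplitW (R : V → V → Prop) (K : Set V) : Prop :=
  (∀ x ∈ K, ∀ y ∈ K, x ≠ y → R x y) ∧ ∀ x, x ∉ K → ∀ y, y ∉ K → ¬ R x y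

/-- the five-cycle `s` is joined to the clique `K` and to no vertex of the independent rest -/
def IsC5W (R : V → V → Prop) (s : Fin 5 → V) (K : Set V) : Prop :=
  (∀ x ∈ K, ∀ i, x ≠ s i) ∧ (∀ x ∈ K, ∀ y ∈ K, x ≠ y → R x y) ∧ (∀ x ∈ K, ∀ i, R x (s i)) ∧
    (∀ x, x ∉ K → (∀ i, x ≠ s i) → ∀ y, y ∉ K → (∀ i, y ≠ s i) → ¬ R x y) ∧
    (∀ x, x ∉ K → (∀ i, x ≠ s i) → ∀ i, ¬ R x (s i))

theorem finite_check : ∀ f : Fin 5 → Bool, (∃ i, f i = true) → (∃ i, f i = false) →
    (∃ a b c : Fin 5, cyc5 a b ∧ cyc5 b c ∧ ¬ cyc5 a c ∧ a ≠ c ∧ f a = true ∧ f c = true ∧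
      f b = false) ∨
    (∃ a b c : Fin 5, cyc5 b c ∧ a ≠ b ∧ a ≠ c ∧ f a = true ∧ f b = false ∧ f c = false ∧
      ¬ cyc5 a b ∧ ¬ cyc5 a c) := by
  decide

variable {R : V → V → Prop}

theorem complete_or_anti (hs : ∀ x y, R x y → R y x) (h4 : NoC4 R) (h2 : No2K2 R) {s : Fin 5 → V}
    (h5 : IsC5 R s) (v : V) (hv : ∀ i, v ≠ s i) : (∀ i, R v (s i)) ∨ ∀ i, ¬ R v (s i) := by
  classical
  by_contra hcon
  push Not at hcon
  obtain ⟨⟨i, hi⟩, ⟨j, hj⟩⟩ := hcon
  rcases finite_check (fun i => decide (R v (s i))) ⟨j, by simpa using hj⟩ ⟨i, by simpa using hi⟩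
    with ⟨a, b, c, h⟩ | ⟨a, b, c, h⟩
  · simp only [decide_eq_true_eq, decide_eq_false_iff_not] at h
    obtain ⟨hab, hbc, hac, hne, ha, hc, hb⟩ := h
    exact h4 v (s a) (s b) (s c) ha ((h5.2 a b).2 hab) ((h5.2 b c).2 hbc) (hs _ _ hc) (hv b)
      (fun h => hne (h5.1 h)) hb (fun h => hac ((h5.2 a c).1 h))
  · simp only [decide_eq_true_eq, decide_eq_false_iff_not] at h
    obtain ⟨hbc, hne1, hne2, ha, hb, hc, hab, hac⟩ := h
    exact h2 v (s a) (s b) (s c) ha ((h5.2 b c).2 hbc) (hv b) (hv c) (fun h => hne1 (h5.1 h))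
      (fun h => hne2 (h5.1 h)) hb hc (fun h => hab ((h5.2 a b).1 h))
      (fun h => hac ((h5.2 a c).1 h))

theorem c5W_of (hs : ∀ x y, R x y → R y x) (h4 : NoC4 R) (h2 : No2K2 R)
    {s : Fin 5 → V} (h5 : IsC5 R s) : IsC5W R s {x | (∀ i, x ≠ s i) ∧ ∀ i, R x (s i)} := by
  have h01 : R (s 0) (s 1) := (h5.2 0 1).2 (by decide)
  have h02 : ¬ R (s 0) (s 2) := fun h => absurd ((h5.2 0 2).1 h) (by decide)
  have hn02 : s 0 ≠ s 2 := fun h => absurd (h5.1 h) (by decide)
  refine ⟨fun x hx => hx.1, ?_, fun x hx => hx.2, ?_, ?_⟩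
  · intro x hx y hy hxy
    by_contra hn
    exact h4 x (s 0) y (s 2) (hx.2 0) (hs _ _ (hy.2 0)) (hy.2 2) (hs _ _ (hx.2 2)) hxy hn02 hn h02
  · intro x hx hx' y hy hy' hxy
    have h1 : ∀ i, ¬ R x (s i) := (complete_or_anti hs h4 h2 h5 x hx').resolve_left
      (fun h => hx ⟨hx', h⟩)
    have h3 : ∀ i, ¬ R y (s i) := (complete_or_anti hs h4 h2 h5 y hy').resolve_left
      (fun h => hy ⟨hy', h⟩)
    exact h2 x y (s 0) (s 1) hxy h01 (hx' 0) (hx' 1) (hy' 0) (hy' 1) (h1 0) (h1 1) (h3 0) (h3 1)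
  · intro x hx hx'
    exact (complete_or_anti hs h4 h2 h5 x hx').resolve_left (fun h => hx ⟨hx', h⟩)

theorem isC5_mk (hs : ∀ x y, R x y → R y x) (hi : ∀ x, ¬ R x x) {a z y x c : V}
    (e1 : R a z) (e2 : R z y) (e3 : R y x) (e4 : R x c) (e5 : R c a)
    (f1 : ¬ R a y) (f2 : ¬ R a x) (f3 : ¬ R z x) (f4 : ¬ R z c) (f5 : ¬ R y c)
    (n1 : a ≠ z) (n2 : a ≠ y) (n3 : a ≠ x) (n4 : a ≠ c) (n5 : z ≠ y) (n6 : z ≠ x) (n7 : z ≠ c)
    (n8 : y ≠ x) (n9 : y ≠ c) (n10 : x ≠ c) : IsC5 R ![a, z, y, x, c] := by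
  have hsy : ∀ x y, R x y ↔ R y x := fun x y => ⟨hs x y, hs y x⟩
  constructor
  · intro i j hij
    fin_cases i <;> fin_cases j <;> first | rfl | (exfalso; simp at hij; tauto)
  · intro i j
    have c5 : ∀ i j : Fin 5, (cyc5 i j ↔ cyc5 j i) := by decide
    rcases lt_trichotomy i j with h | h | h
    · fin_cases i <;> fin_cases j <;> first | (exact absurd h (by decide)) |
        (refine iff_of_true ?_ (by decide); assumption) |
        (refine iff_of_true ?_ (by decide); apply hs; assumption) |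
        (refine iff_of_false ?_ (by decide); assumption)
    · subst h
      refine iff_of_false (hi _) ?_
      revert i; decide
    · rw [hsy, c5]
      fin_cases i <;> fin_cases j <;> first | (exact absurd h (by decide)) |
        (refine iff_of_true ?_ (by decide); assumption) |
        (refine iff_of_true ?_ (by decide); apply hs; assumption) |
        (refine iff_of_false ?_ (by decide); assumption)

/-- the number of ordered pairs of adjacent vertices outside `K` -/
noncomputable def outE [Fintype V] (R : V → V → Prop) (K : Finset V) : ℕ := by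
  classical
  exact (Finset.univ.filter (fun p : V × V => p.1 ∉ K ∧ p.2 ∉ K ∧ R p.1 p.2)).card

/-- **Structure theorem.** -/
theorem structure_thm [Fintype V] (hs : ∀ x y, R x y → R y x) (hi : ∀ x, ¬ R x x) (h4 : NoC4 R)
    (h2 : No2K2 R) : (∃ K : Set V, IsSplitW R K) ∨ ∃ (s : Fin 5 → V) (K : Set V), IsC5 R s ∧
      IsC5W R s K := by
  classical
  by_cases hC : ∃ s, IsC5 R s
  · obtain ⟨s, h5⟩ := hC
    exact Or.inr ⟨s, _, h5, c5W_of hs h4 h2 h5⟩
  left
  let CL : Finset (Finset V) := Finset.univ.filter fun K => ∀ x ∈ K, ∀ y ∈ K, x ≠ y → R x y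
  have hCLne : CL.Nonempty := ⟨∅, by simp [CL]⟩
  obtain ⟨K0, hK0, hmax⟩ := Finset.exists_max_image CL Finset.card hCLne
  let MX : Finset (Finset V) := CL.filter fun K => K.card = K0.card
  have hMXne : MX.Nonempty := ⟨K0, by simp [MX, hK0]⟩
  obtain ⟨K, hK, hmin⟩ := Finset.exists_min_image MX (outE R) hMXne
  have hKc : ∀ x ∈ K, ∀ y ∈ K, x ≠ y → R x y := by
    have := (Finset.mem_filter.1 hK).1
    simpa [CL] using this
  have hKcard : K.card = K0.card := (Finset.mem_filter.1 hK).2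
  have hmaxK : ∀ K' : Finset V, (∀ x ∈ K', ∀ y ∈ K', x ≠ y → R x y) → K'.card ≤ K.card := by
    intro K' hK'
    rw [hKcard]
    exact hmax K' (by simpa [CL] using hK')
  refine ⟨K, by simpa using hKc, ?_⟩
  intro x hx y hy hxy
  have hx : x ∉ K := by simpa using hx
  have hy : y ∉ K := by simpa using hy
  have hxy' : x ≠ y := fun h => hi x (by rw [← h] at hxy; exact hxy)
  -- every vertex outside misses some vertex of K
  have hmiss : ∀ z, z ∉ K → ∃ a ∈ K, ¬ R z a := by
    intro z hz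
    by_contra hcon
    push Not at hcon
    have := hmaxK (insert z K) (by
      intro p hp q hq hpq
      rw [Finset.mem_insert] at hp hq
      rcases hp with rfl | hp <;> rcases hq with rfl | hq
      · exact absurd rfl hpq
      · exact hcon q hq
      · exact hs _ _ (hcon p hp)
      · exact hKc p hp q hq hpq)
    rw [Finset.card_insert_of_notMem hz] at this
    omega
  have hne : ∀ {a z}, a ∈ K → z ∉ K → a ≠ z := fun ha hz h => hz (h ▸ ha)
  -- two different vertices of K
  have hpair : ∀ a ∈ K, ∀ b ∈ K, a ≠ b → ¬ R x a → ¬ R y b → (R y a ∧ ¬ R x b) ∨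
      (R x b ∧ ¬ R y a) := by
    intro a ha b hb hab hxa hyb
    by_cases h1 : R y a
    · by_cases h3 : R x b
      · exact (h4 a b x y (hKc a ha b hb hab) (hs _ _ h3) hxy h1 (hne ha hx) (hne hb hy)
          (fun h => hxa (hs _ _ h)) (fun h => hyb (hs _ _ h))).elim
      · exact Or.inl ⟨h1, h3⟩
    · by_cases h3 : R x b
      · exact Or.inr ⟨h3, h1⟩
      · exact (h2 x y a b hxy (hKc a ha b hb hab) (hne ha hx).symm (hne hb hx).symm
          (hne ha hy).symm (hne hb hy).symm hxa h3 h1 hyb).elim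
  -- no two different vertices missed by both
  have hboth : ∀ a ∈ K, ∀ b ∈ K, ¬ R x a → ¬ R y a → ¬ R x b → ¬ R y b → a = b := by
    intro a ha b hb h1 h3 h5 h6
    by_contra hab
    exact h2 x y a b hxy (hKc a ha b hb hab) (hne ha hx).symm (hne hb hx).symm
          (hne ha hy).symm (hne hb hy).symm h1 h5 h3 h6
  -- one of the two vertices misses exactly one vertex of K
  have hsym : ∃ x' y', x' ∉ K ∧ y' ∉ K ∧ R x' y' ∧ ∃ a ∈ K, ¬ R x' a ∧ ¬ R y' a ∧
      ∀ b ∈ K, b ≠ a → R x' b := by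
    obtain ⟨a, ha, hxa⟩ := hmiss x hx
    obtain ⟨b, hb, hyb⟩ := hmiss y hy
    -- a common missed vertex
    have hcom : ∃ c ∈ K, ¬ R x c ∧ ¬ R y c := by
      by_cases hab : a = b
      · subst hab; exact ⟨a, ha, hxa, hyb⟩
      · rcases hpair a ha b hb hab hxa hyb with ⟨_, h⟩ | ⟨_, h⟩
        · exact ⟨b, hb, h, hyb⟩
        · exact ⟨a, ha, hxa, h⟩
    obtain ⟨c, hc, hxc, hyc⟩ := hcom
    by_cases hxo : ∀ d ∈ K, d ≠ c → R x d
    · exact ⟨x, y, hx, hy, hxy, c, hc, hxc, hyc, hxo⟩
    · refine ⟨y, x, hy, hx, hs _ _ hxy, c, hc, hyc, hxc, ?_⟩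
      push Not at hxo
      obtain ⟨d, hd, hdc, hxd⟩ := hxo
      intro e he hec
      by_contra hye
      by_cases hde : d = e
      · subst hde
        exact hdc (hboth d hd c hc hxd hye hxc hyc)
      · rcases hpair d hd e he hde hxd hye with ⟨_, h⟩ | ⟨_, h⟩
        · exact hec (hboth e he c hc h hye hxc hyc)
        · exact hdc (hboth d hd c hc hxd h hxc hyc)
  clear hboth hpair
  obtain ⟨x, y, hx, hy, hxy, a, ha, hxa, hya, hxK⟩ := hsym
  have hxa' : x ≠ a := (hne ha hx).symm
  have hya' : y ≠ a := (hne ha hy).symm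
  have hxy' : x ≠ y := fun h => hi x (by rw [← h] at hxy; exact hxy)
  -- exchange a and x
  let K' := insert x (K.erase a)
  have hK'c : ∀ p ∈ K', ∀ q ∈ K', p ≠ q → R p q := by
    intro p hp q hq hpq
    simp only [K', Finset.mem_insert, Finset.mem_erase] at hp hq
    rcases hp with rfl | ⟨hpa, hp⟩ <;> rcases hq with rfl | ⟨hqa, hq⟩
    · exact absurd rfl hpq
    · exact hxK q hq hqa
    · exact hs _ _ (hxK p hp hpa)
    · exact hKc p hp q hq hpq
  have hK'card : K'.card = K.card := by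
    rw [Finset.card_insert_of_notMem (by simp [hx]), Finset.card_erase_of_mem ha]
    have : 0 < K.card := Finset.card_pos.2 ⟨a, ha⟩
    omega
  have hle : outE R K ≤ outE R K' := hmin K' (by
    simp only [MX, CL, Finset.mem_filter, Finset.mem_univ, true_and]
    exact ⟨hK'c, by rw [hK'card, hKcard]⟩)
  -- some z adjacent to a but not to x
  have hz : ∃ z, z ∉ K ∧ R z a ∧ ¬ R z x := by
    by_contra hcon
    push Not at hcon
    have hlt : outE R K' < outE R K := by
      unfold outE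
      let f : V × V → V × V := fun p => (Equiv.swap a x p.1, Equiv.swap a x p.2)
      have hf : Function.Injective f := fun p q h => by
        simp only [f, Prod.mk.injEq, EmbeddingLike.apply_eq_iff_eq] at h
        exact Prod.ext h.1 h.2
      rw [← Finset.card_image_of_injective _ hf]
      apply Finset.card_lt_card
      rw [Finset.ssubset_iff_of_subset]
      · refine ⟨(x, y), by simp [hx, hy, hxy], ?_⟩
        intro hmem
        rw [Finset.mem_image] at hmem
        obtain ⟨⟨p, q⟩, hp, hpq⟩ := hmem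
        simp only [Finset.mem_filter, Finset.mem_univ, true_and, f, Prod.mk.injEq] at hp hpq
        obtain ⟨hp1, hp2⟩ := hpq
        have hp3 : p = a := by
          have := congrArg (Equiv.swap a x) hp1
          simpa using this
        have hp4 : q = y := by
          have := congrArg (Equiv.swap a x) hp2
          rw [Equiv.swap_apply_self, Equiv.swap_apply_of_ne_of_ne hya' hxy'.symm] at this
          exact this
        subst hp3 hp4
        exact hya (hs _ _ hp.2.2)
      · intro p hp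
        rw [Finset.mem_image] at hp
        obtain ⟨⟨u, v⟩, huv, rfl⟩ := hp
        simp only [Finset.mem_filter, Finset.mem_univ, true_and, f, K', Finset.mem_insert,
          Finset.mem_erase, not_or, not_and] at huv ⊢
        obtain ⟨⟨hu1, hu2⟩, ⟨hv1, hv2⟩, huv⟩ := huv
        have hu3 : u = a ∨ (u ≠ a ∧ u ∉ K) := by
          by_cases h : u = a
          · exact Or.inl h
          · exact Or.inr ⟨h, hu2 h⟩
        have hv3 : v = a ∨ (v ≠ a ∧ v ∉ K) := by
          by_cases h : v = a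
          · exact Or.inl h
          · exact Or.inr ⟨h, hv2 h⟩
        rcases hu3 with rfl | ⟨hua, huK⟩
        · rcases hv3 with rfl | ⟨hva, hvK⟩
          · exact absurd huv (hi _)
          · rw [Equiv.swap_apply_left, Equiv.swap_apply_of_ne_of_ne hva hv1]
            exact ⟨hx, hvK, hs _ _ (hcon v hvK (hs _ _ huv))⟩
        · rw [Equiv.swap_apply_of_ne_of_ne hua hu1]
          rcases hv3 with rfl | ⟨hva, hvK⟩
          · rw [Equiv.swap_apply_left]
            exact ⟨huK, hx, hcon u huK huv⟩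
          · rw [Equiv.swap_apply_of_ne_of_ne hva hv1]
            exact ⟨huK, hvK, huv⟩
    omega
  obtain ⟨z, hz, hza, hzx⟩ := hz
  have hza' : z ≠ a := (hne ha hz).symm
  have hzx' : z ≠ x := fun h => hxa (h ▸ hza)
  have hzy' : z ≠ y := fun h => hya (h ▸ hza)
  have hzy : R z y := by
    by_contra h
    exact h2 z a x y hza hxy hzx' hzy' hxa'.symm hya'.symm hzx h (fun h' => hxa (hs _ _ h'))
      (fun h' => hya (hs _ _ h'))
  -- the other vertices of K are adjacent to both or to none of z, y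
  have hKzy : ∀ c ∈ K, c ≠ a → (R z c ↔ R y c) := by
    intro c hc hca
    have h1 := hKc c hc a ha hca
    have h3 := hxK c hc hca
    constructor
    · intro h
      by_contra hyc
      exact h4 c z y x (hs _ _ h) hzy (hs _ _ hxy) h3 (hne hc hy) hzx'
        (fun h' => hyc (hs _ _ h')) hzx
    · intro h
      by_contra hzc
      exact h4 a z y c (hs _ _ hza) hzy h h1 hya'.symm (hne hc hz).symm
        (fun h' => hya (hs _ _ h')) hzc
  obtain ⟨c, hc, hca, hyc⟩ : ∃ c ∈ K, c ≠ a ∧ ¬ R y c := by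
    by_contra hcon
    push Not at hcon
    have := hmaxK (insert y (insert x (K.erase a))) (by
      intro p hp q hq hpq
      rw [Finset.mem_insert] at hp hq
      have hyp : ∀ p ∈ insert x (K.erase a), R y p := by
        intro p hp
        rw [Finset.mem_insert, Finset.mem_erase] at hp
        rcases hp with rfl | ⟨hpa, hp⟩
        · exact hs _ _ hxy
        · exact hcon p hp hpa
      rcases hp with rfl | hp <;> rcases hq with rfl | hq
      · exact absurd rfl hpq
      · exact hyp q hq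
      · exact hs _ _ (hyp p hp)
      · exact hK'c p hp q hq hpq)
    have h1 : y ∉ insert x (K.erase a) := by
      simp [hxy'.symm, hy]
    rw [Finset.card_insert_of_notMem h1] at this
    have h3 : (insert x (K.erase a)).card = K.card := hK'card
    omega
  have hzc : ¬ R z c := fun h => hyc ((hKzy c hc hca).1 h)
  exact hC ⟨_, isC5_mk hs hi (hs _ _ hza) hzy (hs _ _ hxy) (hxK c hc hca) (hKc c hc a ha hca)
    (fun h => hya (hs _ _ h)) (fun h => hxa (hs _ _ h)) hzx hzc hyc (hne ha hz) (hne ha hy)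
    (hne ha hx) (Ne.symm hca) hzy' hzx' (hne hc hz).symm hxy'.symm (hne hc hy).symm
    (hne hc hx).symm⟩

end Pool.Agent.R546.EM
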