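import Pool.Agent.R546.EM.Alg
import Pool.Agent.R546.EM.Struct

/-!
# Counting changes, forbidden subgraphs, and an exchange argument
-/

set_option autoImplicit false

namespace Pool.Agent.R546.EM

open Pool.Agent.NPC Pool.Agent.NPC.R671

theorem ncard_symmDiff {n : ℕ} (G G' : SimpleGraph (Fin n)) :
    2 * (symmDiff G.edgeSet G'.edgeSet).ncard =
      ∑ i : Fin n, ∑ j : Fin n, (open Classical in if G.Adj i j ↔ G'.Adj i j then 0 else 1) := by
  classical
  let H : SimpleGraph (Fin n) := (G \ G') ⊔ (G' \ G)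
  have h1 : H.edgeSet = symmDiff G.edgeSet G'.edgeSet := by
    simp only [H, SimpleGraph.edgeSet_sup, SimpleGraph.edgeSet_sdiff]
    rfl
  have h5 := H.sum_degrees_eq_twice_card_edges
  rw [← Set.ncard_coe_finset, SimpleGraph.coe_edgeFinset, h1] at h5
  rw [← h5]
  refine Finset.sum_congr rfl fun i _ => ?_
  rw [← SimpleGraph.card_neighborFinset_eq_degree, Finset.card_eq_sum_ones,
    SimpleGraph.neighborFinset_eq_filter, Finset.sum_filter]
  refine Finset.sum_congr rfl fun j _ => ?_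
  have h3 : H.Adj i j ↔ ¬ (G.Adj i j ↔ G'.Adj i j) := by
    simp only [H, SimpleGraph.sup_adj, SimpleGraph.sdiff_adj]
    tauto
  by_cases h : G.Adj i j ↔ G'.Adj i j
  · rw [if_pos h, if_neg (by rw [h3]; exact fun h' => h' h)]
  · rw [if_neg h, if_pos (h3.2 h)]

theorem inj4 {V : Type} (a b c d : V)
    (n1 : a ≠ b) (n2 : a ≠ c) (n3 : a ≠ d) (n4 : b ≠ c) (n5 : b ≠ d) (n6 : c ≠ d) :
    Function.Injective ![a, b, c, d] := by
  intro i j hij
  fin_cases i <;> fin_cases j <;> first | rfl | (exfalso; simp at hij; tauto)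

/-- four vertices as an embedding -/
theorem emb4 {n : ℕ} {G : SimpleGraph (Fin n)} {H : SimpleGraph (Fin 4)} (a b c d : Fin n)
    (n1 : a ≠ b) (n2 : a ≠ c) (n3 : a ≠ d) (n4 : b ≠ c) (n5 : b ≠ d) (n6 : c ≠ d)
    (h1 : G.Adj a b ↔ H.Adj 0 1) (h2 : G.Adj a c ↔ H.Adj 0 2) (h3 : G.Adj a d ↔ H.Adj 0 3)
    (h4 : G.Adj b c ↔ H.Adj 1 2) (h5 : G.Adj b d ↔ H.Adj 1 3) (h6 : G.Adj c d ↔ H.Adj 2 3) :
    Nonempty (H ↪g G) := by
  have key : ∀ i j : Fin 4, i < j → (G.Adj (![a, b, c, d] i) (![a, b, c, d] j) ↔ H.Adj i j) := by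
    intro i j h
    have h' : (i = 0 ∧ j = 1) ∨ (i = 0 ∧ j = 2) ∨ (i = 0 ∧ j = 3) ∨ (i = 1 ∧ j = 2) ∨
        (i = 1 ∧ j = 3) ∨ (i = 2 ∧ j = 3) := by
      revert i j; decide
    rcases h' with ⟨rfl, rfl⟩ | ⟨rfl, rfl⟩ | ⟨rfl, rfl⟩ | ⟨rfl, rfl⟩ | ⟨rfl, rfl⟩ | ⟨rfl, rfl⟩
    · exact h1
    · exact h2
    · exact h3
    · exact h4
    · exact h5
    · exact h6
  refine ⟨⟨⟨![a, b, c, d], ?_⟩, ?_⟩⟩
  · exact inj4 a b c d n1 n2 n3 n4 n5 n6
  · intro i j
    simp only [Function.Embedding.coeFn_mk]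
    rcases lt_trichotomy i j with h | h | h
    · exact key i j h
    · subst h
      exact iff_of_false (G.irrefl) (H.irrefl)
    · rw [G.adj_comm, H.adj_comm]
      exact key j i h

theorem isEmpty_C4 {n : ℕ} (G : SimpleGraph (Fin n)) : IsEmpty (C4.G ↪g G) ↔ NoC4 G.Adj := by
  constructor
  · intro h a b c d hab hbc hcd hda hac hbd h1 h2
    refine (not_isEmpty_iff.2 ?_) h
    refine emb4 (H := SimpleGraph.cycleGraph 4) a b c d hab.ne hac hda.ne' hbc.ne hbd hcd.ne
      (iff_of_true hab ?_) (iff_of_false h1 ?_) (iff_of_true hda.symm ?_) (iff_of_true hbc ?_)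
      (iff_of_false h2 ?_) (iff_of_true hcd ?_) <;> decide
  · intro h
    refine ⟨fun f' => ?_⟩
    let f : SimpleGraph.cycleGraph 4 ↪g G := f'
    have hf : ∀ i j : Fin 4, G.Adj (f i) (f j) ↔ (SimpleGraph.cycleGraph 4).Adj i j :=
      fun i j => f.map_rel_iff
    have hi : ∀ i j : Fin 4, i ≠ j → f i ≠ f j := fun i j hij h => hij (f.injective h)
    refine h (f 0) (f 1) (f 2) (f 3) ((hf 0 1).2 (by decide)) ((hf 1 2).2 (by decide))
      ((hf 2 3).2 (by decide)) ((hf 3 0).2 (by decide)) (hi _ _ (by decide)) (hi _ _ (by decide))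
      ?_ ?_
    · rw [hf]; decide
    · rw [hf]; decide

theorem isEmpty_twoK2 {n : ℕ} (G : SimpleGraph (Fin n)) :
    IsEmpty (twoK2.G ↪g G) ↔ No2K2 G.Adj := by
  constructor
  · intro h a b c d hab hcd hac had hbc hbd h1 h2 h3 h4
    refine (not_isEmpty_iff.2 ?_) h
    refine emb4 (H := (SimpleGraph.cycleGraph 4)ᶜ) a c b d hac hab.ne had hbc.symm hcd.ne hbd
      (iff_of_false h1 ?_) (iff_of_true hab ?_) (iff_of_false h2 ?_)
      (iff_of_false (fun h => h3 h.symm) ?_)
      (iff_of_true hcd ?_) (iff_of_false h4 ?_) <;> decide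
  · intro h
    refine ⟨fun f' => ?_⟩
    let f : (SimpleGraph.cycleGraph 4)ᶜ ↪g G := f'
    have hf : ∀ i j : Fin 4, G.Adj (f i) (f j) ↔ ((SimpleGraph.cycleGraph 4)ᶜ).Adj i j :=
      fun i j => f.map_rel_iff
    have hi : ∀ i j : Fin 4, i ≠ j → f i ≠ f j := fun i j hij h => hij (f.injective h)
    refine h (f 0) (f 2) (f 1) (f 3) ((hf 0 2).2 (by decide)) ((hf 1 3).2 (by decide))
      (hi _ _ (by decide)) (hi _ _ (by decide)) (hi _ _ (by decide)) (hi _ _ (by decide))
      ?_ ?_ ?_ ?_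
    · rw [hf]; decide
    · rw [hf]; decide
    · rw [hf]; decide
    · rw [hf]; decide

/-- an exchange argument -/
theorem prefix_exists {n : ℕ} (R K : Finset (Fin n)) (hK : K ⊆ R) (key : Fin n → ℕ) :
    ∃ K' ⊆ R, K'.card = K.card ∧ ∑ x ∈ K, key x ≤ ∑ x ∈ K', key x ∧
      (K' = ∅ ∨ ∃ v : Fin n, K' = R.filter (fun x => key v * (n * n + 1) + (n - v) ≤
        key x * (n * n + 1) + (n - x))) := by
  classical
  set W : Fin n → ℕ := fun x => key x * (n * n + 1) + (n - x) with hW
  let F : Finset (Finset (Fin n)) := R.powersetCard K.card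
  have hF : K ∈ F := by simp [F, Finset.mem_powersetCard, hK]
  obtain ⟨K', hK', hmax⟩ := Finset.exists_max_image F (fun K => ∑ x ∈ K, W x) ⟨K, hF⟩
  have hK'2 := Finset.mem_powersetCard.1 hK'
  refine ⟨K', hK'2.1, hK'2.2, ?_, ?_⟩
  · have h1 := hmax K hF
    simp only [hW] at h1
    rw [Finset.sum_add_distrib, Finset.sum_add_distrib, ← Finset.sum_mul, ← Finset.sum_mul] at h1
    by_contra hcon
    push Not at hcon
    have h2 : ∑ x ∈ K', (n - (x : ℕ)) ≤ n * n := by
      calc ∑ x ∈ K', (n - (x : ℕ)) ≤ ∑ x ∈ K', n := Finset.sum_le_sum fun x _ => Nat.sub_le _ _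
        _ = K'.card * n := by rw [Finset.sum_const, smul_eq_mul]
        _ ≤ n * n := by
          apply Nat.mul_le_mul_right
          simpa using Finset.card_le_univ K'
    have h3 : (∑ x ∈ K', key x + 1) * (n * n + 1) ≤ (∑ x ∈ K, key x) * (n * n + 1) :=
      Nat.mul_le_mul_right _ hcon
    rw [add_mul] at h3
    omega
  · rcases K'.eq_empty_or_nonempty with h | h
    · exact Or.inl h
    right
    obtain ⟨v, hv, hvmin⟩ := Finset.exists_min_image K' W h
    refine ⟨v, ?_⟩
    ext x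
    rw [Finset.mem_filter]
    constructor
    · intro hx
      exact ⟨hK'2.1 hx, hvmin x hx⟩
    · rintro ⟨hxR, hx⟩
      by_contra hxK
      have hvx : v ≠ x := fun h => hxK (h ▸ hv)
      have hlt : W v < W x := by
        rcases lt_or_eq_of_le hx with h | h
        · exact h
        · exfalso
          have hn1 : n - (v : ℕ) < n * n + 1 := by
            have := v.2
            nlinarith [Nat.sub_le n (v : ℕ)]
          have hn2 : n - (x : ℕ) < n * n + 1 := by
            have := x.2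
            nlinarith [Nat.sub_le n (x : ℕ)]
          have h4 := congrArg (fun a => a % (n * n + 1)) h
          simp only [Nat.mul_add_mod'] at h4
          rw [Nat.mod_eq_of_lt hn1, Nat.mod_eq_of_lt hn2] at h4
          apply hvx
          apply Fin.ext
          have := x.2
          have := v.2
          omega
      have h5 := hmax (insert x (K'.erase v)) (by
        simp only [F, Finset.mem_powersetCard]
        refine ⟨?_, ?_⟩
        · intro y hy
          rw [Finset.mem_insert, Finset.mem_erase] at hy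
          rcases hy with rfl | ⟨_, hy⟩
          · exact hxR
          · exact hK'2.1 hy
        · rw [Finset.card_insert_of_notMem (by simp [hxK]), Finset.card_erase_of_mem hv,
            ← hK'2.2]
          have : 0 < K'.card := Finset.card_pos.2 ⟨v, hv⟩
          omega)
      rw [Finset.sum_insert (by simp [hxK])] at h5
      have h6 := Finset.add_sum_erase K' W hv
      omega

end Pool.Agent.R546.EM
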