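import Pool.Agent.H671R2.CK.Defs
import Pool.Agent.H671R2.ZDefs

/-!
# Edge modification problems and their polynomial kernels
-/

set_option autoImplicit false

namespace Pool.Agent.R546.EM

open Pool.Agent.NPC Pool.Agent.NPC.R671

/-- The three types of edge modification problems. -/
inductive Mode : Type
  | deletion
  | completion
  | editing

/-- A finite graph, with vertices `0, ..., n - 1`. -/
structure FinGr : Type where
  /-- the number of vertices -/
  n : ℕ
  /-- the graph -/
  G : SimpleGraph (Fin n)

/-- `G` is `ℱ`-free: no induced subgraph of `G` is isomorphic to a member of `ℱ`. -/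
def IsFree (ℱ : Set FinGr) {n : ℕ} (G : SimpleGraph (Fin n)) : Prop :=
  ∀ H ∈ ℱ, IsEmpty (H.G ↪g G)

/-- `G'` arises from `G` by changes of the type `M`: deletions of edges, additions of edges, or
both. -/
def Mode.Allows {n : ℕ} (M : Mode) (G G' : SimpleGraph (Fin n)) : Prop :=
  match M with
  | Mode.deletion => G' ≤ G
  | Mode.completion => G ≤ G'
  | Mode.editing => True

/-- `(G, k)` is a yes-instance of the `ℱ`-free edge modification problem of type `M`: the graph `G`
can be made `ℱ`-free by deleting edges (adding edges, deleting and adding edges), at most `k` of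
them in total. -/
def Solvable (M : Mode) (ℱ : Set FinGr) {n : ℕ} (G : SimpleGraph (Fin n)) (k : ℕ) : Prop :=
  ∃ G' : SimpleGraph (Fin n), M.Allows G G' ∧ (symmDiff G.edgeSet G'.edgeSet).ncard ≤ k ∧
    IsFree ℱ G'

/-- The `ℱ`-free edge modification problem of type `M`, parameterized by `k`, has a polynomial
kernel: a polynomial-time algorithm maps (the adjacency matrix and the number of) every instance
`(G, k)` to an equivalent instance `(G', k')` of the same problem such that the number of vertices
of `G'` plus `k'` is at most `p k`, for a polynomial `p`. -/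
def HasPolyKernel (M : Mode) (ℱ : Set FinGr) : Prop :=
  ∃ (F : List Bool → List Bool) (p : Polynomial ℕ), PolyTime F ∧
    ∀ (n : ℕ) (G : SimpleGraph (Fin n)) (k : ℕ),
      ∃ (n' : ℕ) (G' : SimpleGraph (Fin n')) (k' : ℕ),
        F (bits (adjMatrix G, k)) = bits (adjMatrix G', k') ∧ n' + k' ≤ p.eval k ∧
          (Solvable M ℱ G k ↔ Solvable M ℱ G' k')

/-- The cycle on four vertices. -/
def C4 : FinGr := ⟨4, SimpleGraph.cycleGraph 4⟩

/-- The complement of the cycle on four vertices: two disjoint edges, `2 K₂`. -/
def twoK2 : FinGr := ⟨4, (SimpleGraph.cycleGraph 4)ᶜ⟩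

end Pool.Agent.R546.EM
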