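import Pool.Agent.R546.EM.Corr2
import Pool.Agent.H622R2.CoNP

/-!
# The kernel for two forbidden graphs; complementation
-/

set_option autoImplicit false

namespace Pool.Agent.R546.EM

open Pool.Agent.NPC Pool.Agent.NPC.R671 Pool.Agent.H622R2

/-- the kernelization for two forbidden graphs -/
noncomputable def kerF (x : List Bool) : List (List Bool) × ℕ :=
  match unbits (List (List Bool) × ℕ) x with
  | none => (adjMatrix (⊥ : SimpleGraph (Fin 0)), 0)
  | some p => if alg p = true then (adjMatrix (⊥ : SimpleGraph (Fin 0)), 0)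
    else (adjMatrix (SimpleGraph.cycleGraph 4), 0)

theorem poly_kerF : Poly kerF := by
  have h := NPC.Poly.optCases (o := fun x : List Bool => unbits (List (List Bool) × ℕ) x)
    (g := fun _ => (adjMatrix (⊥ : SimpleGraph (Fin 0)), 0))
    (h := fun _ p => if alg p = true then (adjMatrix (⊥ : SimpleGraph (Fin 0)), 0)
      else (adjMatrix (SimpleGraph.cycleGraph 4), 0))
    poly_unbits (NPC.Poly.const _) (NPC.Poly.ite (NPC.Poly.decide_bool
      (poly_alg.comp (NPC.Poly.snd NPC.Poly.id))) (NPC.Poly.const _) (NPC.Poly.const _))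
  refine h.congr fun x => ?_
  unfold kerF
  cases unbits (List (List Bool) × ℕ) x <;> rfl

theorem solvable_zero : Solvable .editing {C4, twoK2} (⊥ : SimpleGraph (Fin 0)) 0 := by
  rw [solvable_iff]
  refine ⟨⊥, by simp [dif], fun a => a.elim0, fun a => a.elim0⟩

theorem not_solvable_C4 : ¬ Solvable .editing {C4, twoK2} (SimpleGraph.cycleGraph 4) 0 := by
  classical
  rw [solvable_iff]
  rintro ⟨G', h, h4, -⟩
  have h1 : ∀ i j : Fin 4, (SimpleGraph.cycleGraph 4).Adj i j ↔ G'.Adj i j := by
    intro i j
    by_contra hcon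
    have h2 : 0 < dif (SimpleGraph.cycleGraph 4) G' := by
      unfold dif
      refine Finset.sum_pos' (fun _ _ => Nat.zero_le _) ⟨i, Finset.mem_univ _, ?_⟩
      refine Finset.sum_pos' (fun _ _ => Nat.zero_le _) ⟨j, Finset.mem_univ _, ?_⟩
      rw [if_neg hcon]
      exact one_pos
    omega
  refine h4 0 1 2 3 ((h1 _ _).1 (by decide)) ((h1 _ _).1 (by decide)) ((h1 _ _).1 (by decide))
    ((h1 _ _).1 (by decide)) (by decide) (by decide) ?_ ?_
  · rw [← h1]; decide
  · rw [← h1]; decide

theorem kernel : HasPolyKernel .editing {C4, twoK2} := by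
  refine ⟨fun x => bits (kerF x), 4, polyTime_bits poly_kerF, fun n G k => ?_⟩
  by_cases h : alg (adjMatrix G, k) = true
  · refine ⟨0, ⊥, 0, ?_, by simp, ?_⟩
    · show bits (kerF (bits (adjMatrix G, k))) = _
      unfold kerF
      rw [unbits_bits]
      simp only [h, if_true]
    · rw [← alg_iff]
      exact iff_of_true h solvable_zero
  · refine ⟨4, SimpleGraph.cycleGraph 4, 0, ?_, by simp, ?_⟩
    · show bits (kerF (bits (adjMatrix G, k))) = _
      unfold kerF
      rw [unbits_bits]
      simp only [h]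
      rfl
    · rw [← alg_iff]
      exact iff_of_false h not_solvable_C4

/-! ### Complementation -/

/-- the complement of an adjacency matrix -/
def compM (M : List (List Bool)) : List (List Bool) :=
  (List.range M.length).map fun i => (List.range M.length).map fun j =>
    !decide (i = j) && !ent M i j

attribute [local fun_prop] poly_rangeLen poly_ent

theorem poly_compM {α : Type} [TEnc α] {M : α → List (List Bool)} (hM : Poly M) :
    Poly (fun a => compM (M a)) := by
  unfold compM
  fun_prop

theorem adjMatrix_compl {n : ℕ} (G : SimpleGraph (Fin n)) :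
    adjMatrix Gᶜ = compM (adjMatrix G) := by
  classical
  unfold compM
  rw [adjMatrix_length]
  unfold adjMatrix
  rw [List.ofFn_eq_map, ← List.map_coe_finRange_eq_range, List.map_map]
  refine List.map_congr_left fun i _ => ?_
  rw [List.ofFn_eq_map]
  simp only [Function.comp, List.map_map]
  refine List.map_congr_left fun j _ => ?_
  have h := ent_adjMatrix G i j
  unfold adjMatrix at h
  rw [Bool.eq_iff_iff]
  simp only [decide_eq_true_eq, SimpleGraph.compl_adj, Function.comp, Bool.and_eq_true,
    Bool.not_eq_true', decide_eq_false_iff_not]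
  rw [← h, ne_eq, Fin.ext_iff]
  simp

theorem solvable_compl {n : ℕ} (G : SimpleGraph (Fin n)) (k : ℕ) (H : FinGr)
    (h : Solvable .editing {H} G k) : Solvable .editing {⟨H.n, H.Gᶜ⟩} Gᶜ k := by
  classical
  obtain ⟨G', -, hk, hf⟩ := h
  refine ⟨G'ᶜ, trivial, ?_, ?_⟩
  · have h1 : _ = dif G G' := ncard_symmDiff G G'
    have h2 : _ = dif Gᶜ G'ᶜ := ncard_symmDiff Gᶜ G'ᶜ
    have h3 : dif Gᶜ G'ᶜ = dif G G' := by
      unfold dif
      refine Finset.sum_congr rfl fun i _ => Finset.sum_congr rfl fun j _ => ?_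
      by_cases hij : i = j
      · subst hij
        simp
      · have : (Gᶜ.Adj i j ↔ G'ᶜ.Adj i j) ↔ (G.Adj i j ↔ G'.Adj i j) := by
          simp only [SimpleGraph.compl_adj]
          tauto
        simp only [this]
    omega
  · intro K hK
    rw [Set.mem_singleton_iff] at hK
    subst hK
    refine ⟨fun f => ?_⟩
    refine (hf H rfl).false (?_ : H.G ↪g G')
    refine ⟨f.toEmbedding, ?_⟩
    intro a b
    have h1 := f.map_rel_iff (a := a) (b := b)
    simp only [SimpleGraph.compl_adj] at h1
    by_cases hab : a = b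
    · subst hab
      simp
    · have h2 : f a ≠ f b := fun h => hab (f.injective h)
      change G'.Adj (f a) (f b) ↔ _
      change (f a ≠ f b ∧ ¬ G'.Adj (f a) (f b)) ↔ _ at h1
      tauto

theorem solvable_compl_iff {n : ℕ} (G : SimpleGraph (Fin n)) (k : ℕ) (H : FinGr) :
    Solvable .editing {H} G k ↔ Solvable .editing {⟨H.n, H.Gᶜ⟩} Gᶜ k := by
  refine ⟨solvable_compl G k H, fun h => ?_⟩
  have h1 := solvable_compl Gᶜ k _ h
  simp only [compl_compl] at h1
  exact h1

/-- the kernelization for the complement -/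
noncomputable def cmpF (F : List Bool → List Bool) (x : List Bool) : List (List Bool) × ℕ :=
  match unbits (List (List Bool) × ℕ) x with
  | none => ([], 0)
  | some p => match unbits (List (List Bool) × ℕ) (F (bits (compM p.1, p.2))) with
    | none => ([], 0)
    | some q => (compM q.1, q.2)

theorem poly_bits' {α : Type} [TEnc α] : Poly (fun a : α => bits a) := by
  obtain ⟨c, p, h⟩ := PC.rawIn
  exact ⟨c, p, fun a => h (bits a)⟩

theorem poly_cmpF {F : List Bool → List Bool} (hF : PolyTime F) : Poly (cmpF F) := by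
  have hc : Poly compM := poly_compM NPC.Poly.id
  have h1 : Poly (fun p : List Bool × (List (List Bool) × ℕ) => bits (compM p.2.1, p.2.2)) :=
    poly_bits'.comp (NPC.Poly.pair (hc.comp (NPC.Poly.fst (NPC.Poly.snd NPC.Poly.id)))
      (NPC.Poly.snd (NPC.Poly.snd NPC.Poly.id)))
  have h2 := (poly_unbits (α := List (List Bool) × ℕ)).comp ((poly_of_polyTime hF).comp h1)
  have h3 := NPC.Poly.optCases (o := fun p : List Bool × (List (List Bool) × ℕ) =>
      unbits (List (List Bool) × ℕ) (F (bits (compM p.2.1, p.2.2))))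
    (g := fun _ => (([], 0) : List (List Bool) × ℕ)) (h := fun _ q => (compM q.1, q.2)) h2
    (NPC.Poly.const _) (NPC.Poly.pair (hc.comp (NPC.Poly.fst (NPC.Poly.snd NPC.Poly.id)))
      (NPC.Poly.snd (NPC.Poly.snd NPC.Poly.id)))
  have h4 := NPC.Poly.optCases (o := fun x : List Bool => unbits (List (List Bool) × ℕ) x)
    (g := fun _ => (([], 0) : List (List Bool) × ℕ))
    (h := fun _ p => match unbits (List (List Bool) × ℕ) (F (bits (compM p.1, p.2))) with
      | none => (([], 0) : List (List Bool) × ℕ)
      | some q => (compM q.1, q.2))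
    poly_unbits (NPC.Poly.const _) (h3.congr fun p => by
      cases unbits (List (List Bool) × ℕ) (F (bits (compM p.2.1, p.2.2))) <;> rfl)
  refine h4.congr fun x => ?_
  unfold cmpF
  cases unbits (List (List Bool) × ℕ) x <;> rfl

theorem kernel_compl (H : FinGr) (h : HasPolyKernel .editing {H}) :
    HasPolyKernel .editing {⟨H.n, H.Gᶜ⟩} := by
  obtain ⟨F, p, hF, hk⟩ := h
  refine ⟨fun x => bits (cmpF F x), p, polyTime_bits (poly_cmpF hF), fun n G k => ?_⟩
  obtain ⟨n', G', k', h1, h2, h3⟩ := hk n Gᶜ k
  refine ⟨n', G'ᶜ, k', ?_, h2, ?_⟩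
  · show bits (cmpF F (bits (adjMatrix G, k))) = _
    unfold cmpF
    rw [unbits_bits]
    simp only
    rw [← adjMatrix_compl, h1, unbits_bits]
    simp only
    rw [adjMatrix_compl]
  · have h4 := solvable_compl_iff Gᶜ k H
    rw [compl_compl] at h4
    rw [← h4, h3]
    exact solvable_compl_iff G' k' H

theorem kernel_C4_iff : HasPolyKernel .editing {C4} ↔ HasPolyKernel .editing {twoK2} := by
  refine ⟨fun h => kernel_compl C4 h, fun h => ?_⟩
  have h1 := kernel_compl twoK2 h
  have h2 : (⟨twoK2.n, twoK2.Gᶜ⟩ : FinGr) = C4 := by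
    unfold twoK2 C4
    rw [compl_compl]
  rwa [h2] at h1

end Pool.Agent.R546.EM
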